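import Pool.Agent.N236.UR.Stm

/-!
UR/RES (project UR of helper236): at most `q` equidistant points. By helper56.
-/

set_option autoImplicit false

namespace Pool.Agent.N56.UR

open Pool.Agent.N236.UR Pool.Agent.N236.UB

theorem t_RES : S_RES := by
  intro L _ v p q e hL V c u f s s' hc hs hs' hfs hfu
  obtain ⟨hna, -, -, O, k, _, _, red, hO, hred, hsurj, hcard⟩ := hL
  have hq : 0 < q := by rw [← hcard]; exact Fintype.card_pos
  have hva : ∀ a b, a ≠ b → v (wd (V (f a)) (V (f b))) = s / (c (f a) * c (f b)) := by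
    intro a b hab
    have := hfs a b hab
    unfold dl at this
    rw [eq_div_iff (mul_pos (hc _) (hc _)).ne', ← this]
    ring
  have hvu : ∀ a, v (wd (V (f a)) (V u)) = s' / (c (f a) * c u) := by
    intro a
    have := hfu a
    unfold dl at this
    rw [eq_div_iff (mul_pos (hc _) (hc _)).ne', ← this]
    ring
  have hu0 : ∀ a, wd (V (f a)) (V u) ≠ 0 := by
    intro a h
    have := hvu a
    rw [h, map_zero] at this
    exact (div_pos hs' (mul_pos (hc _) (hc _))).ne this
  set t : Fin (q + 1) → L := fun a => wd (V (f a)) (V (f 0)) / wd (V (f a)) (V u) with ht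
  set K : ℝ := s * c u / (s' * c (f 0)) with hK
  have hK0 : 0 < K := div_pos (mul_pos hs (hc _)) (mul_pos hs' (hc _))
  have hdiff : ∀ a b, a ≠ b → v (t a - t b) = K := by
    intro a b hab
    have h1 : t a - t b = wd (V (f a)) (V (f b)) * wd (V (f 0)) (V u) /
        (wd (V (f a)) (V u) * wd (V (f b)) (V u)) := by
      rw [ht]
      have e1 := hu0 a
      have e2 := hu0 b
      simp only
      rw [div_sub_div _ _ e1 e2]
      congr 1
      unfold wd
      ring
    rw [h1, map_div₀, map_mul, map_mul, hva a b hab, hvu, hvu, hvu, hK]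
    have c1 := (hc (f a)).ne'
    have c2 := (hc (f b)).ne'
    have c3 := (hc (f 0)).ne'
    have c4 := (hc u).ne'
    have c5 := hs'.ne'
    field_simp
  -- normalise
  have hj : Fin.last q ≠ 0 := by
    intro h
    have := congrArg Fin.val h
    simp at this
    omega
  set D : L := t (Fin.last q) - t 0 with hD
  have hvD : v D = K := hdiff _ _ hj
  set r : Fin (q + 1) → L := fun a => (t a - t 0) / D with hr
  have hr1 : ∀ a, v (r a) ≤ 1 := by
    intro a
    rw [hr]
    simp only
    rw [map_div₀, hvD]
    by_cases h : a = 0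
    · rw [h, sub_self, map_zero, zero_div]
      exact zero_le_one
    · rw [hdiff _ _ h, div_self hK0.ne']
  have hrd : ∀ a b, a ≠ b → v (r a - r b) = 1 := by
    intro a b hab
    have : r a - r b = (t a - t b) / D := by
      rw [hr]
      simp only
      rw [← sub_div]
      congr 1
      ring
    rw [this, map_div₀, hvD, hdiff a b hab, div_self hK0.ne']
  obtain ⟨a, b, hab, he⟩ := Fintype.exists_ne_map_eq_of_card_lt
    (fun a : Fin (q + 1) => red ⟨r a, (hO _).2 (hr1 a)⟩) (by rw [hcard, Fintype.card_fin]; omega)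
  have h1 : red (⟨r a, (hO _).2 (hr1 a)⟩ - ⟨r b, (hO _).2 (hr1 b)⟩) = 0 := by
    rw [map_sub]
    exact sub_eq_zero.mpr he
  have h2 := (hred _).1 h1
  have h3 : v (r a - r b) < 1 := h2
  rw [hrd a b hab] at h3
  exact lt_irrefl _ h3

end Pool.Agent.N56.UR
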