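import Pool.Agent.N236.UR.Stm

/-!
UR/ULT (project UR of helper236): the invariant metric is an ultrametric. By helper56.
-/

set_option autoImplicit false

namespace Pool.Agent.N56.UR

open Pool.Agent.N236.UR Pool.Agent.N236.UB

theorem t_ULT : S_ULT := by
  intro L _ v p q e n V c hL hn hcfg
  obtain ⟨hfam, hc0, hcper, hshift⟩ := hcfg
  obtain ⟨hna, -, -, -⟩ := hL
  have hinv : ∀ x y t : ℤ, dl v V c (x + t) (y + t) = dl v V c x y := by
    intro x y t
    induction t using Int.induction_on with
    | zero => simp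
    | succ t ih =>
      rw [← ih, ← hshift (x + t) (y + t)]
      congr 1 <;> ring
    | pred t ih =>
      rw [← ih, ← hshift (x + (-(t : ℤ) - 1)) (y + (-(t : ℤ) - 1))]
      congr 1 <;> ring
  have hsym : ∀ x y : ℤ, dl v V c x y = dl v V c y x := by
    intro x y
    unfold dl
    have h1 : wd (V y) (V x) = -wd (V x) (V y) := by unfold wd; ring
    rw [h1, v.map_neg]
    ring
  have hnn : ∀ x y : ℤ, 0 ≤ dl v V c x y := fun x y =>
    mul_nonneg (mul_nonneg (hc0 x).le (hc0 y).le) (v.nonneg _)
  have hzero : ∀ x y : ℤ, dl v V c x y = 0 ↔ (n : ℤ) ∣ x - y := by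
    intro x y
    rw [← hfam.2 x y]
    unfold dl
    rw [mul_eq_zero, mul_eq_zero, v.eq_zero]
    constructor
    · rintro ((h | h) | h)
      · exact absurd h (hc0 x).ne'
      · exact absurd h (hc0 y).ne'
      · exact h
    · exact fun h => Or.inr h
  refine ⟨?_, hinv, hsym, hzero, hnn⟩
  -- the diameter
  have hper : ∀ y k : ℤ, dl v V c 0 (y + k * n) = dl v V c 0 y := by
    intro y k
    have h1 : V (y + k * n) = V y := Function.Periodic.int_mul (f := V) hfam.1 k y
    have h2 : c (y + k * n) = c y := Function.Periodic.int_mul (f := c) hcper k y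
    unfold dl
    rw [h1, h2]
  obtain ⟨t₀, -, hmax⟩ := Finset.exists_max_image (Finset.range n)
    (fun t : ℕ => dl v V c 0 (t : ℤ)) ⟨0, Finset.mem_range.mpr (by omega)⟩
  set G : ℝ := dl v V c 0 (t₀ : ℤ) with hG
  have hle : ∀ x y : ℤ, dl v V c x y ≤ G := by
    intro x y
    have h1 : dl v V c x y = dl v V c 0 (y - x) := by
      rw [← hinv 0 (y - x) x]
      congr 1 <;> ring
    have hn0 : (n : ℤ) ≠ 0 := by omega
    have h2 : dl v V c 0 (y - x) = dl v V c 0 ((y - x) % n) := by
      rw [← hper ((y - x) % n) ((y - x) / n)]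
      congr 1
      have := Int.emod_add_mul_ediv (y - x) n
      linarith
    obtain ⟨m, hm⟩ := Int.eq_ofNat_of_zero_le (Int.emod_nonneg (y - x) hn0)
    have hmn : m < n := by
      have := Int.emod_lt_of_pos (y - x) (by omega : (0 : ℤ) < n)
      omega
    rw [h1, h2, hm]
    exact hmax m (Finset.mem_range.mpr hmn)
  intro x y z
  by_contra hcon
  push Not at hcon
  obtain ⟨h1, h2⟩ := max_lt_iff.mp hcon
  set z' : ℤ := z + t₀ with hz'
  have hzz : dl v V c z z' = G := by
    rw [hG, ← hinv 0 (t₀ : ℤ) z]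
    congr 1 <;> ring
  have hxy0 : 0 < dl v V c x y := lt_of_le_of_lt (hnn x z) h1
  have hG0 : 0 < G := lt_of_lt_of_le hxy0 (hle x y)
  -- the Pluecker relation
  have hpl : wd (V x) (V y) * wd (V z) (V z') =
      wd (V x) (V z) * wd (V y) (V z') + -(wd (V x) (V z') * wd (V y) (V z)) := by
    unfold wd
    ring
  have hv : v (wd (V x) (V y)) * v (wd (V z) (V z')) ≤
      max (v (wd (V x) (V z)) * v (wd (V y) (V z'))) (v (wd (V x) (V z')) * v (wd (V y) (V z))) := by
    rw [← map_mul, ← map_mul, ← map_mul, hpl]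
    refine (hna _ _).trans ?_
    rw [v.map_neg]
  have hC : 0 < c x * c y * (c z * c z') :=
    mul_pos (mul_pos (hc0 _) (hc0 _)) (mul_pos (hc0 _) (hc0 _))
  have hmain : dl v V c x y * dl v V c z z' ≤
      max (dl v V c x z * dl v V c y z') (dl v V c x z' * dl v V c y z) := by
    have e1 : dl v V c x y * dl v V c z z' =
        c x * c y * (c z * c z') * (v (wd (V x) (V y)) * v (wd (V z) (V z'))) := by
      unfold dl; ring
    have e2 : dl v V c x z * dl v V c y z' =
        c x * c y * (c z * c z') * (v (wd (V x) (V z)) * v (wd (V y) (V z'))) := by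
      unfold dl; ring
    have e3 : dl v V c x z' * dl v V c y z =
        c x * c y * (c z * c z') * (v (wd (V x) (V z')) * v (wd (V y) (V z))) := by
      unfold dl; ring
    rw [e1, e2, e3, ← mul_max_of_nonneg _ _ hC.le]
    exact mul_le_mul_of_nonneg_left hv hC.le
  rw [hzz] at hmain
  rcases le_max_iff.mp hmain with h | h
  · have h3 : dl v V c x z * dl v V c y z' ≤ dl v V c x z * G :=
      mul_le_mul_of_nonneg_left (hle _ _) (hnn _ _)
    have h4 : dl v V c x z * G < dl v V c x y * G := mul_lt_mul_of_pos_right h1 hG0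
    linarith
  · have h3 : dl v V c x z' * dl v V c y z ≤ G * dl v V c z y := by
      rw [hsym y z]
      exact mul_le_mul_of_nonneg_right (hle _ _) (hnn _ _)
    have h4 : dl v V c z y * G < dl v V c x y * G := mul_lt_mul_of_pos_right h2 hG0
    linarith

end Pool.Agent.N56.UR
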